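import Pool.Agent.Helper31.TW.St2

/-! # Project TW, module CST (two crossing walls are not both active) -/

set_option autoImplicit false

namespace Pool.Agent.Helper27.TW

open Pool.Agent.Helper31.TW

theorem hCST (hCS1 : StCS1) (hCS2 : StCS2) (_hACT : StACT) : StCST := by
  intro n M 𝓐 K hctx α hα β hβ hne x y0 hy0 h1 h2 ha hb
  by_cases hja : Jmp M 𝓐 α
  · exact hCS1 n M 𝓐 K hctx α hα β hβ hne x y0 hy0 h1 h2 hja hb
  · by_cases hjb : Jmp M 𝓐 β
    · exact hCS1 n M 𝓐 K hctx β hβ α hα (Ne.symm hne) x y0 hy0 h2 h1 hjb ha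
    · exact hCS2 n M 𝓐 K hctx α hα β hβ hne x y0 hy0 h1 h2 hja hjb ha hb

end Pool.Agent.Helper27.TW
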